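import Pool.Agent.P.MP_106a28_lc.Dec

set_option autoImplicit false

open Pool.Agent.P.MP_106a28_lc in
theorem Pool.Agent.Results.MP_106a28_lc.AllEight.result :
    AllSets NC ∧ AllSets UC ∧ ¬ AllSets NED ∧ ¬ AllSets UED ∧ ¬ AllSets NG ∧
      ¬ AllSets UG ∧ ¬ AllSets ND ∧ ¬ AllSets UD :=
  Pool.Agent.P.MP_106a28_lc.main
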