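import Pool.Agent.P.MP_106a28_lc.DtC

set_option autoImplicit false

open Pool.Agent.P.MP_106a28_lc in
theorem Pool.Agent.Results.MP_106a28_lc.DeltaThree.result :
    ∃ (g : ℕ → ℕ) (a : ℕ → ℕ → ℕ) (b : ℕ × ℕ × ℕ → ℕ), Computable b ∧
      (∀ n s, ∀ᶠ t in Filter.atTop, b (n, s, t) = a n s) ∧
      (∀ n, ∀ᶠ s in Filter.atTop, a n s = g n) ∧
      ∀ A : Set ℕ, ¬ (UED (A.indicator 1) g ∧ UED g (A.indicator 1)) ∧
        ¬ (UG (A.indicator 1) g ∧ UG g (A.indicator 1)) ∧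
        ¬ (UD (A.indicator 1) g ∧ UD g (A.indicator 1)) :=
  Pool.Agent.P.MP_106a28_lc.d3_main
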