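import Pool.Agent.P.MP_106a28_lc.LbC

set_option autoImplicit false

open Pool.Agent.P.MP_106a28_lc in
theorem Pool.Agent.Results.MP_106a28_lc.LimitBounded.result :
    ∀ (g h : ℕ → ℕ) (b : ℕ → ℕ → ℕ), Computable₂ b →
      (∀ n, ∀ᶠ s in Filter.atTop, b n s = h n) → (∀ n, g n ≤ h n) →
      ∃ A : Set ℕ, (UED (A.indicator 1) g ∧ UED g (A.indicator 1)) ∧
        (UG (A.indicator 1) g ∧ UG g (A.indicator 1)) ∧
        (UD (A.indicator 1) g ∧ UD g (A.indicator 1)) :=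
  Pool.Agent.P.MP_106a28_lc.lim_main
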